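import Mathlib
import Pool.Agent.H36.RP.Targets
import Pool.Agent.H83.W.QG

/-!
# The remote past of Furstenberg systems of real multiplicative functions. Targets

Problem MP_34b97f_an. These rows complete the rows of `Pool.Agent.H36.RP.Targets` to all real
multiplicative functions with values in `[-1, 1]`.
-/

set_option autoImplicit false

open MeasureTheory ProbabilityTheory Filter Topology Finset

namespace Pool.Agent.H47.RP

open Pool.Agent.H89.MT (I1 X pt z1 IsMult)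
open Pool.Agent.H91.LF (Mean Dil Bdd)
open Pool.Agent.H36.RP (S past remote remote_le mulI dil Local Star T_MW T_APX T_PYT T_PRD T_TAI
  T_IND)

/-- the sign, `1` at `0` -/
noncomputable def sg (t : ℝ) : ℝ := if t < 0 then -1 else 1

/-- `Φ` depends on the coordinates in `[-H, H]` and is uniformly continuous on `[-1, 1]` -/
def UC (H : ℕ) (Φ : (ℤ → ℝ) → ℝ) : Prop := ∀ ε : ℝ, 0 < ε → ∃ δ : ℝ, 0 < δ ∧ ∀ z z' : ℤ → ℝ,
  (∀ k : ℤ, |k| ≤ H → |z k| ≤ 1 ∧ |z' k| ≤ 1 ∧ |z k - z' k| ≤ δ) → |Φ z - Φ z'| ≤ ε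

open Classical in
/-- [RAD] Decoupling for words with letters in a finite set. -/
def T_RAD : Prop := ∀ (M : Mean 1) (A : Type) (_ : Fintype A) (x : ℤ → A) (H : ℕ), ∃ C : ℝ,
  ∀ g : ℕ → (ℤ → A) → ℝ, (∀ p z, |g p z| ≤ 1) →
    (∀ p, ∀ z z' : ℤ → A, (∀ k : ℤ, |k| ≤ H → z k = z' k) → g p z = g p z') →
    ∀ S : Finset ℕ, (∀ p ∈ S, p.Prime) →
      ∑ p ∈ S, (1 / (p : ℝ)) * (M.E (fun ω => (p : ℝ) * if (p : ℤ) ∣ ω 0 then
          g p (fun k => x (ω 0 + p * k)) else 0) -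
        M.E (fun ω => g p (fun k => x (ω 0 + p * k)))) ^ 2 ≤ C

/-- [RAR] The entropy decrement for the twisted dilations, real values. -/
def T_RAR : Prop := ∀ M : Mean 1, Dil M → ∀ F : ℤ → ℝ, (∀ n, |F n| ≤ 1) →
  (∀ (p : ℕ) (m : ℤ), p.Prime → ¬ (p : ℤ) ∣ m → F (p * m) = F p * F m) →
  ∀ (H : ℕ) (Φ : (ℤ → ℝ) → ℝ), (∀ z, |Φ z| ≤ 1) → UC H Φ → ∀ ε : ℝ, 0 < ε →
    ∃ δ C : ℝ, 0 < δ ∧ ∀ S : Finset ℕ, (∀ p ∈ S, p.Prime ∧ 1 - δ ≤ |F p| ∧
      ε < |M.E (fun ω => Φ (fun k => sg (F p) * F (ω 0 + p * k))) -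
        M.E (fun ω => Φ (fun k => F (ω 0 + k)))|) → ∑ p ∈ S, 1 / (p : ℝ) ≤ C

/-- [RST] Approximate invariance under the dilations. -/
def T_RST : Prop := ∀ u : ℕ → I1, IsMult u →
  Summable (fun p : ℕ => if p.Prime then (1 - |(u p : ℝ)|) / p else 0) →
  ∀ (κ : Measure X) [IsProbabilityMeasure κ], Pool.Agent.H36.RP.QuasiGeneric u κ → Star κ

/-- [RZA] The logarithmic sum of a multiplicative function with nonnegative values. -/
def T_RZA : Prop := ∃ C : ℝ, ∀ u : ℕ → I1, IsMult u → ∀ N : ℕ, 2 ≤ N →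
  ∑ n ∈ Icc 1 N, |(u n : ℝ)| / n ≤ C * Real.log N *
    Real.exp (-∑ p ∈ (Icc 1 N).filter Nat.Prime, (1 - |(u p : ℝ)|) / p)

/-- [RZE] Small values. -/
def T_RZE : Prop := ∀ u : ℕ → I1, IsMult u →
  ¬ Summable (fun p : ℕ => if p.Prime then (1 - |(u p : ℝ)|) / p else 0) →
  ∀ κ : Measure X, Pool.Agent.H89.MT.QuasiGeneric u κ → ∀ᵐ x ∂κ, ∀ k : ℤ, (x k : ℝ) = 0

/-- [RQG] The windows `[1, N]`. -/
def T_RQG : Prop := ∀ (u : ℕ → I1) (κ : Measure X), Pool.Agent.H89.MT.QuasiGeneric u κ →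
  Pool.Agent.H36.RP.QuasiGeneric u κ ∧ MeasurePreserving S κ κ

/-- [RSC] The prediction of the coordinates by the remote past, continuous functions. -/
def T_RSC : Prop := ∀ (κ : Measure X) [IsProbabilityMeasure κ], MeasurePreserving S κ κ →
  Star κ → ∀ (m : ℤ) (ψ : I1 → ℝ), Continuous ψ →
    κ[fun x => ψ (x m) | past (m - 1)] =ᵐ[κ] κ[fun x => ψ (x m) | remote]

/-- [RSE] The prediction of the coordinates by the remote past, all functions. -/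
def T_RSE : Prop := ∀ (κ : Measure X) [IsProbabilityMeasure κ], MeasurePreserving S κ κ →
  (Star κ ∨ ∀ᵐ x ∂κ, ∀ k : ℤ, (x k : ℝ) = 0) → ∀ (m : ℤ) (ψ : I1 → ℝ), Measurable ψ →
  (∀ a, |ψ a| ≤ 1) → κ[fun x => ψ (x m) | past (m - 1)] =ᵐ[κ] κ[fun x => ψ (x m) | remote]

/-- [RFI] The theorem for all real multiplicative functions. -/
def T_RFI : Prop := ∀ u : ℕ → I1, IsMult u → ∀ (κ : Measure X) [IsProbabilityMeasure κ],
  Pool.Agent.H89.MT.QuasiGeneric u κ →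
  iCondIndepFun remote remote_le (fun (n : ℤ) (x : X) => x n) κ

end Pool.Agent.H47.RP
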