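import Pool.Agent.H47.RP.Targets

/-!
# The remote past of Furstenberg systems of real multiplicative functions. Targets, part 2

The remote past is generated by the conditional laws of the coordinates of any past.
-/

set_option autoImplicit false

open MeasureTheory ProbabilityTheory Filter Topology Finset

namespace Pool.Agent.H47.RP

open Pool.Agent.H89.MT (I1 X pt z1 IsMult)
open Pool.Agent.H36.RP (S past remote remote_le mulI dil Local Star T_APX)

/-- the sigma algebra generated by the conditional moments, given the remote past, of the
coordinates `x k`, `k ≤ q` -/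
noncomputable def bias (κ : Measure X) (q : ℤ) : MeasurableSpace X :=
  ⨆ k : ℤ, ⨆ _ : k ≤ q, ⨆ j : ℕ,
    MeasurableSpace.comap (κ[fun x => (x k : ℝ) ^ j | remote]) inferInstance

/-- [RGN] The conditional laws generate the remote past. -/
def T_RGN : Prop := ∀ (κ : Measure X) [IsProbabilityMeasure κ],
  iCondIndepFun remote remote_le (fun (n : ℤ) (x : X) => x n) κ →
  ∀ (g : X → ℝ) (C : ℝ), Measurable[remote] g → (∀ x, |g x| ≤ C) → ∀ q : ℤ,
    ∃ h : X → ℝ, Measurable[bias κ q] h ∧ g =ᵐ[κ] h

end Pool.Agent.H47.RP
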