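import Pool.Agent.H47.RP.Targets2
import Pool.Agent.H92.RR.Targets

/-!
# The remote past of Furstenberg systems of real multiplicative functions. Targets, part 3

The absolute values, the signs and the structure predicted by Q1 of MP_34b97f_an.
-/

set_option autoImplicit false

open MeasureTheory ProbabilityTheory Filter Topology Finset

namespace Pool.Agent.H47.RP

open Pool.Agent.H89.MT (I1 X pt z1 IsMult)
open Pool.Agent.H36.RP (S past remote remote_le mulI dil Local Star T_APX T_TAI)
open Pool.Agent.H92.RR (Pred)

/-- the absolute values of the coordinates are functions of the remote past -/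
def AbsR (κ : Measure X) : Prop :=
  ∀ n : ℤ, κ[fun x => |(x n : ℝ)| | remote] =ᵐ[κ] fun x => |(x n : ℝ)|

/-- the sigma algebra generated by the conditional expectations, given the remote past, of the
coordinates `x k`, `k ≤ q`, and of their absolute values -/
noncomputable def laws (κ : Measure X) (q : ℤ) : MeasurableSpace X :=
  ⨆ k : ℤ, ⨆ _ : k ≤ q, (MeasurableSpace.comap (κ[fun x => (x k : ℝ) | remote]) inferInstance ⊔
    MeasurableSpace.comap (κ[fun x => |(x k : ℝ)| | remote]) inferInstance)

/-- [RAB] The absolute values of the coordinates are functions of the remote past. -/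
def T_RAB : Prop := ∀ u : ℕ → I1, IsMult u → ∀ (κ : Measure X) [IsProbabilityMeasure κ],
  Pool.Agent.H89.MT.QuasiGeneric u κ → AbsR κ

/-- [RLG] The remote past is generated by the conditional expectations. -/
def T_RLG : Prop := ∀ (κ : Measure X) [IsProbabilityMeasure κ], AbsR κ →
  iCondIndepFun remote remote_le (fun (n : ℤ) (x : X) => x n) κ →
  ∀ (q : ℤ) (A : Set X), MeasurableSet[remote] A →
    ∃ B : Set X, MeasurableSet[laws κ q] B ∧ A =ᵐ[κ] B

/-- [RPI] If the remote past does not predict the sign, then the structure is as predicted. -/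
def T_RPI : Prop := ∀ u : ℕ → I1, IsMult u → ∀ (κ : Measure X) [IsProbabilityMeasure κ],
  Pool.Agent.H89.MT.QuasiGeneric u κ → AbsR κ →
  iCondIndepFun remote remote_le (fun (n : ℤ) (x : X) => x n) κ →
  κ[fun x => (x 0 : ℝ) | remote] =ᵐ[κ] 0 → Pred u κ

/-- [RPJ] If the structure is as predicted, then the remote past does not predict the sign. -/
def T_RPJ : Prop := ∀ (u : ℕ → I1) (κ : Measure X) [IsProbabilityMeasure κ], Pred u κ →
  κ[fun x => (x 0 : ℝ) | remote] =ᵐ[κ] 0

end Pool.Agent.H47.RP
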